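import Mathlib.Analysis.Normed.Algebra.UnitizationL1
import Mathlib.Topology.ContinuousMap.ZeroAtInfty
import Mathlib.Topology.Baire.CompleteMetrizable
import Mathlib.Topology.Baire.Lemmas
import Mathlib.Analysis.SpecificLimits.Normed
import Mathlib.Analysis.SpecialFunctions.Pow.Complex
import Mathlib.Analysis.Complex.Basic

/-!
# The generators of hypercyclic algebras need not be dense

Let `N` be the space `c₀` with the product `(y z)ₙ = cₙ yₙ zₙ`, `cₙ = 1 / (n + 2)`, and `X` its
unitization. The elements of `X` are identified with the null sequences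
`(a, a c₀ + y₀, a c₁ + y₁, …)`, and `T` is twice the backward shift of these sequences.
-/

set_option autoImplicit false

namespace Pool.Agent.Results.MP_6ee6b4_an.GeneratorsNotDense

open Filter Topology
open scoped ZeroAtInfty

/-! ### Definitions -/

/-- The orbit of `y` under `T` is dense. -/
def Hypercyclic {X : Type} [TopologicalSpace X] (T : X → X) (y : X) : Prop :=
  Dense (Set.range fun n : ℕ => T^[n] y)

/-- The set of the `x` that generate a hypercyclic algebra for `T`. -/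
def Gen {X : Type} [NormedRing X] [NormedAlgebra ℂ X] (T : X → X) : Set X :=
  {x | x ≠ 0 ∧ ∀ y ∈ Submodule.span ℂ (Set.range fun n : ℕ => x ^ (n + 1)), y ≠ 0 →
    Hypercyclic T y}

/-! ### The algebra `N` -/

/-- The underlying space of `N`. -/
abbrev E : Type := C₀(ℕ, ℂ)

theorem tendsto_E (y : E) : Tendsto y atTop (𝓝 0) := by
  have h := zero_at_infty y
  rwa [Filter.cocompact_eq_cofinite, Nat.cofinite_eq_atTop] at h

/-- The element of `c₀` with given coordinates. -/
def ofSeq (f : ℕ → ℂ) (hf : Tendsto f atTop (𝓝 0)) : E where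
  toFun := f
  continuous_toFun := continuous_of_discreteTopology
  zero_at_infty' := by
    rw [Filter.cocompact_eq_cofinite, Nat.cofinite_eq_atTop]
    exact hf

@[simp] theorem ofSeq_apply (f : ℕ → ℂ) (hf : Tendsto f atTop (𝓝 0)) (n : ℕ) :
    ofSeq f hf n = f n := rfl

theorem norm_E_le {y : E} {C : ℝ} (hC : 0 ≤ C) (h : ∀ n, ‖y n‖ ≤ C) : ‖y‖ ≤ C := by
  rw [← ZeroAtInftyContinuousMap.norm_toBCF_eq_norm]
  exact (BoundedContinuousFunction.norm_le hC).2 h

theorem norm_apply_le (y : E) (n : ℕ) : ‖y n‖ ≤ ‖y‖ := by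
  rw [← ZeroAtInftyContinuousMap.norm_toBCF_eq_norm]
  exact y.toBCF.norm_coe_le_norm n

/-- The weights. -/
noncomputable def cw (n : ℕ) : ℂ := 1 / ((n : ℂ) + 2)

theorem cw_eq (n : ℕ) : cw n = (((1 : ℝ) / ((n : ℝ) + 2) : ℝ) : ℂ) := by
  rw [cw]
  push_cast
  rfl

theorem norm_cw (n : ℕ) : ‖cw n‖ = 1 / ((n : ℝ) + 2) := by
  rw [cw_eq, Complex.norm_real, Real.norm_of_nonneg (by positivity)]

theorem cw_ne (n : ℕ) : cw n ≠ 0 := by
  rw [← norm_pos_iff, norm_cw]
  positivity

theorem norm_cw_le (n : ℕ) : ‖cw n‖ ≤ 1 := by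
  rw [norm_cw, div_le_one (by positivity)]
  have : (0 : ℝ) ≤ n := Nat.cast_nonneg n
  linarith

theorem tendsto_cw : Tendsto cw atTop (𝓝 0) := by
  rw [tendsto_zero_iff_norm_tendsto_zero]
  simp_rw [norm_cw]
  have h := tendsto_one_div_add_atTop_nhds_zero_nat (𝕜 := ℝ)
  have h2 := (tendsto_add_atTop_iff_nat 1).2 h
  refine h2.congr fun n => ?_
  push_cast
  ring

/-- The weights as an element of `c₀`. -/
noncomputable def cE : E := ofSeq cw tendsto_cw

theorem norm_cE_le : ‖cE‖ ≤ 1 := norm_E_le zero_le_one norm_cw_le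

/-- The space `c₀` with the weighted product. -/
def NN : Type := E

noncomputable instance instNACG : NormedAddCommGroup NN := inferInstanceAs (NormedAddCommGroup E)

/-- The identity map. -/
def toE : NN → E := fun y => y

/-- The identity map. -/
def ofE : E → NN := fun y => y

noncomputable instance instNUNR : NonUnitalNormedRing NN where
  __ := instNACG
  mul a b := ofE (cE * (toE a * toE b))
  left_distrib a b c := by
    change cE * (toE a * (toE b + toE c)) = cE * (toE a * toE b) + cE * (toE a * toE c)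
    rw [mul_add, mul_add]
  right_distrib a b c := by
    change cE * ((toE a + toE b) * toE c) = cE * (toE a * toE c) + cE * (toE b * toE c)
    rw [add_mul, mul_add]
  zero_mul a := by
    change cE * ((0 : E) * toE a) = 0
    rw [zero_mul, mul_zero]
  mul_zero a := by
    change cE * (toE a * (0 : E)) = 0
    rw [mul_zero, mul_zero]
  mul_assoc a b c := by
    change cE * (cE * (toE a * toE b) * toE c) = cE * (toE a * (cE * (toE b * toE c)))
    ext n
    simp only [ZeroAtInftyContinuousMap.mul_apply]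
    ring
  norm_mul_le a b := by
    change ‖cE * (toE a * toE b)‖ ≤ ‖toE a‖ * ‖toE b‖
    refine (norm_mul_le _ _).trans ?_
    calc ‖cE‖ * ‖toE a * toE b‖ ≤ 1 * (‖toE a‖ * ‖toE b‖) :=
          mul_le_mul norm_cE_le (norm_mul_le _ _) (norm_nonneg _) zero_le_one
      _ = _ := one_mul _

noncomputable instance instNS : NormedSpace ℂ NN where
  __ := (inferInstanceAs (Module ℂ E) : Module ℂ E)
  norm_smul_le c x := norm_smul_le c (toE x)

instance instIST : IsScalarTower ℂ NN NN where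
  smul_assoc c x y := by
    change cE * ((c • toE x) * toE y) = c • (cE * (toE x * toE y))
    rw [smul_mul_assoc, mul_smul_comm]

instance instSCC : SMulCommClass ℂ NN NN where
  smul_comm c x y := by
    change c • (cE * (toE x * toE y)) = cE * (toE x * (c • toE y))
    rw [mul_smul_comm, mul_smul_comm]

instance instCS : CompleteSpace NN := inferInstanceAs (CompleteSpace E)

/-- The algebra `X`. -/
abbrev XX : Type := WithLp 1 (Unitization ℂ NN)


/-- The element `a + y`. -/
noncomputable def mk (a : ℂ) (y : E) : XX := WithLp.toLp 1 ⟨(a, ofE y)⟩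

theorem mk_mul (a b : ℂ) (y z : E) :
    mk a y * mk b z = mk (a * b) (a • z + b • y + cE * (y * z)) := rfl

theorem mk_add (a b : ℂ) (y z : E) : mk a y + mk b z = mk (a + b) (y + z) := rfl

theorem mk_smul (c a : ℂ) (y : E) : c • mk a y = mk (c * a) (c • y) := rfl

theorem mk_zero : mk 0 0 = 0 := rfl

theorem mk_one : mk 1 0 = 1 := rfl

theorem norm_mk (a : ℂ) (y : E) : ‖mk a y‖ = ‖a‖ + ‖y‖ := by
  rw [WithLp.unitization_norm_def]
  rfl

theorem exists_mk (x : XX) : ∃ a y, x = mk a y :=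
  ⟨(WithLp.ofLp x).fst, toE (WithLp.ofLp x).snd, rfl⟩

instance instNOC : NormOneClass XX where
  norm_one := by
    rw [← mk_one, norm_mk, norm_one, norm_zero, add_zero]

theorem XX_comm (x y : XX) : x * y = y * x := by
  obtain ⟨a, u, rfl⟩ := exists_mk x
  obtain ⟨b, v, rfl⟩ := exists_mk y
  rw [mk_mul, mk_mul]
  congr 1
  · ring
  · ext n
    simp only [ZeroAtInftyContinuousMap.add_apply, ZeroAtInftyContinuousMap.mul_apply,
      ZeroAtInftyContinuousMap.smul_apply, smul_eq_mul]
    ring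

/-- The scalar part, a continuous linear functional. -/
noncomputable def fstL : XX →L[ℂ] ℂ :=
  LinearMap.mkContinuous
    { toFun := fun x => (WithLp.ofLp x).fst
      map_add' := fun _ _ => rfl
      map_smul' := fun _ _ => rfl } 1 (by
    intro x
    rw [one_mul, WithLp.unitization_norm_def]
    exact le_add_of_nonneg_right (norm_nonneg _))

/-- The part in `c₀`, a continuous linear map. -/
noncomputable def sndL : XX →L[ℂ] E :=
  LinearMap.mkContinuous
    { toFun := fun x => toE (WithLp.ofLp x).snd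
      map_add' := fun _ _ => rfl
      map_smul' := fun _ _ => rfl } 1 (by
    intro x
    rw [one_mul, WithLp.unitization_norm_def]
    exact le_add_of_nonneg_left (norm_nonneg _))

@[simp] theorem fstL_mk (a : ℂ) (y : E) : fstL (mk a y) = a := rfl
@[simp] theorem sndL_mk (a : ℂ) (y : E) : sndL (mk a y) = y := rfl

theorem mk_eta (x : XX) : mk (fstL x) (sndL x) = x := rfl

/-- The map `(a, y) ↦ a + y` as a continuous linear map. -/
noncomputable def mkL : ℂ × E →L[ℂ] XX :=
  LinearMap.mkContinuous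
    { toFun := fun p => mk p.1 p.2
      map_add' := fun _ _ => rfl
      map_smul' := fun _ _ => rfl } 2 (by
    intro p
    change ‖mk p.1 p.2‖ ≤ _
    rw [norm_mk]
    have h1 := norm_fst_le p
    have h2 := norm_snd_le p
    linarith)

/-- The coordinates of `a + y`: the sequence `(a, a c₀ + y₀, a c₁ + y₁, …)`. -/
noncomputable def co (x : XX) : ℕ → ℂ
  | 0 => fstL x
  | n + 1 => fstL x * cw n + sndL x n

theorem co_sub (x y : XX) (n : ℕ) : co (x - y) n = co x n - co y n := by
  rcases n with _ | n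
  · exact map_sub fstL x y
  · simp only [co, map_sub]
    rw [ZeroAtInftyContinuousMap.sub_apply]
    ring

theorem norm_co_le (x : XX) (n : ℕ) : ‖co x n‖ ≤ ‖x‖ := by
  obtain ⟨a, y, rfl⟩ := exists_mk x
  rw [norm_mk]
  rcases n with _ | n
  · exact le_add_of_nonneg_right (norm_nonneg _)
  · change ‖a * cw n + y n‖ ≤ _
    refine (norm_add_le _ _).trans (add_le_add ?_ (norm_apply_le y n))
    rw [norm_mul]
    exact mul_le_of_le_one_right (norm_nonneg _) (norm_cw_le n)

theorem norm_le_of_co {x : XX} {C : ℝ} (hC : 0 ≤ C) (h : ∀ n, ‖co x n‖ ≤ C) : ‖x‖ ≤ 3 * C := by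
  obtain ⟨a, y, rfl⟩ := exists_mk x
  rw [norm_mk]
  have h0 : ‖a‖ ≤ C := h 0
  have h1 : ‖y‖ ≤ 2 * C := by
    refine norm_E_le (by positivity) fun n => ?_
    have h2 : ‖a * cw n + y n‖ ≤ C := h (n + 1)
    have h3 : ‖a * cw n‖ ≤ C := by
      rw [norm_mul]
      exact (mul_le_of_le_one_right (norm_nonneg _) (norm_cw_le n)).trans h0
    calc ‖y n‖ = ‖(a * cw n + y n) - a * cw n‖ := by congr 1; ring
      _ ≤ _ := norm_sub_le _ _
      _ ≤ 2 * C := by linarith
  linarith

theorem tendsto_co (x : XX) : Tendsto (co x) atTop (𝓝 0) := by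
  rw [← tendsto_add_atTop_iff_nat 1]
  have h1 : Tendsto (fun n => fstL x * cw n) atTop (𝓝 0) := by
    simpa using tendsto_cw.const_mul (fstL x)
  have h2 := h1.add (tendsto_E (sndL x))
  rw [add_zero] at h2
  exact h2

/-- The element with given coordinates. -/
noncomputable def ofCo (f : ℕ → ℂ) (hf : Tendsto f atTop (𝓝 0)) : XX :=
  mk (f 0) (ofSeq (fun n => f (n + 1) - f 0 * cw n) (by
    have h1 : Tendsto (fun n => f 0 * cw n) atTop (𝓝 0) := by
      simpa using tendsto_cw.const_mul (f 0)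
    have h2 := ((tendsto_add_atTop_iff_nat 1).2 hf).sub h1
    rwa [sub_zero] at h2))

theorem co_ofCo (f : ℕ → ℂ) (hf : Tendsto f atTop (𝓝 0)) (n : ℕ) : co (ofCo f hf) n = f n := by
  rcases n with _ | n
  · rfl
  · change f 0 * cw n + (f (n + 1) - f 0 * cw n) = f (n + 1)
    ring

/-- The backward shift of `c₀`. -/
noncomputable def shiftE : E →L[ℂ] E :=
  LinearMap.mkContinuous
    { toFun := fun y => ofSeq (fun n => y (n + 1)) ((tendsto_add_atTop_iff_nat 1).2 (tendsto_E y))
      map_add' := fun _ _ => rfl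
      map_smul' := fun _ _ => rfl } 1 (by
    intro y
    rw [one_mul]
    exact norm_E_le (norm_nonneg _) fun n => norm_apply_le y (n + 1))

/-- Evaluation at `0` on `c₀`. -/
noncomputable def eval0 : E →L[ℂ] ℂ :=
  LinearMap.mkContinuous
    { toFun := fun y => y 0
      map_add' := fun _ _ => rfl
      map_smul' := fun _ _ => rfl } 1 (by
    intro y
    rw [one_mul]
    exact norm_apply_le y 0)

/-- The second coordinate `a c₀ + y₀` -/
noncomputable def co1 : XX →L[ℂ] ℂ := cw 0 • fstL + eval0.comp sndL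

/-- The operator `T`, twice the backward shift of the coordinates. -/
noncomputable def T : XX →L[ℂ] XX :=
  mkL.comp (((2 : ℂ) • co1).prod
    ((2 : ℂ) • (fstL.smulRight (shiftE cE) + shiftE.comp sndL) - ((2 : ℂ) • co1).smulRight cE))

theorem co_T (x : XX) (n : ℕ) : co (T x) n = 2 * co x (n + 1) := by
  obtain ⟨a, y, rfl⟩ := exists_mk x
  have h0 : fstL (T (mk a y)) = 2 * (cw 0 * a + y 0) := rfl
  rcases n with _ | n
  · change fstL (T (mk a y)) = 2 * (a * cw 0 + y 0)
    rw [h0]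
    ring
  · have h1 : sndL (T (mk a y)) n = 2 * (a * cw (n + 1) + y (n + 1)) -
        2 * (cw 0 * a + y 0) * cw n := rfl
    change fstL (T (mk a y)) * cw n + sndL (T (mk a y)) n = 2 * (a * cw (n + 1) + y (n + 1))
    rw [h0, h1]
    ring

theorem co_iterate (k : ℕ) (x : XX) (n : ℕ) : co ((T^[k]) x) n = 2 ^ k * co x (n + k) := by
  induction k generalizing n with
  | zero => simp
  | succ k ih =>
    rw [Function.iterate_succ_apply', co_T, ih]
    rw [show n + 1 + k = n + (k + 1) by ring]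
    ring

theorem iter_eq (k : ℕ) (x : XX) : T^[k] x = (T ^ k) x := by
  induction k generalizing x with
  | zero => rfl
  | succ k ih =>
    rw [Function.iterate_succ_apply', ih, pow_succ']
    rfl

/-! ### Powers of elements of `c₀` -/

theorem co_pow (y : E) (k n : ℕ) : co (mk 0 y ^ (k + 1)) (n + 1) = cw n ^ k * y n ^ (k + 1) ∧
    co (mk 0 y ^ (k + 1)) 0 = 0 := by
  have h : ∀ k : ℕ, ∃ z : E, mk 0 y ^ (k + 1) = mk 0 z ∧
      ∀ n, z n = cw n ^ k * y n ^ (k + 1) := by
    intro k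
    induction k with
    | zero => exact ⟨y, by rw [zero_add, pow_one], fun n => by simp⟩
    | succ k ih =>
      obtain ⟨z, hz1, hz2⟩ := ih
      refine ⟨cE * (z * y), ?_, fun n => ?_⟩
      · rw [pow_succ, hz1, mk_mul]
        congr 1
        · ring
        · rw [zero_smul, zero_smul, zero_add, zero_add]
      · change cw n * (z n * y n) = _
        rw [hz2]
        ring
  obtain ⟨z, hz1, hz2⟩ := h k
  rw [hz1]
  constructor
  · change 0 * cw n + z n = _
    rw [hz2]
    ring
  · rfl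

/-! ### Generators have scalar part zero -/

theorem tendsto_growth : Tendsto (fun k : ℕ => (2 : ℝ) ^ (k + 1) * (1 / ((k : ℝ) + 2))) atTop
    atTop := by
  have h1 : Tendsto (fun n : ℕ => ((n : ℝ)) ^ 1 / (2 : ℝ) ^ n) atTop (𝓝 0) :=
    tendsto_pow_const_div_const_pow_of_one_lt 1 (by norm_num)
  have h2 := (tendsto_add_atTop_iff_nat 2).2 h1
  have h3 : Tendsto (fun n : ℕ => (((n + 2 : ℕ) : ℝ)) ^ 1 / (2 : ℝ) ^ (n + 2)) atTop (𝓝[>] 0) := by
    refine tendsto_nhdsWithin_iff.2 ⟨h2, Eventually.of_forall fun n => ?_⟩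
    change (0 : ℝ) < _
    positivity
  have h4 := h3.inv_tendsto_nhdsGT_zero
  have h5 := h4.const_mul_atTop (show (0 : ℝ) < 1 / 2 by norm_num)
  refine h5.congr fun n => ?_
  simp only [Pi.inv_apply]
  push_cast
  have : (0 : ℝ) < (n : ℝ) + 2 := by positivity
  field_simp
  ring

theorem fst_eq_zero_of_gen {x : XX} (hx : x ∈ Gen T) : fstL x = 0 := by
  obtain ⟨hx0, hx⟩ := hx
  obtain ⟨a, y, rfl⟩ := exists_mk x
  by_contra ha
  rw [fstL_mk] at ha
  set w : XX := mk a y ^ (1 + 1) + (-(2 * a)) • mk a y ^ (0 + 1) with hw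
  have hwmem : w ∈ Submodule.span ℂ (Set.range fun n : ℕ => mk a y ^ (n + 1)) :=
    Submodule.add_mem _ (Submodule.subset_span ⟨1, rfl⟩)
      (Submodule.smul_mem _ _ (Submodule.subset_span ⟨0, rfl⟩))
  have hw2 : w = mk (-a ^ 2) (cE * (y * y)) := by
    rw [hw, pow_succ, zero_add, pow_one, mk_mul, mk_smul, mk_add]
    congr 1
    · ring
    · ext n
      simp only [ZeroAtInftyContinuousMap.add_apply, ZeroAtInftyContinuousMap.mul_apply,
        ZeroAtInftyContinuousMap.smul_apply, smul_eq_mul]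
      ring
  have hw0 : w ≠ 0 := by
    intro h
    have h1 : fstL w = 0 := by rw [h, map_zero]
    rw [hw2, fstL_mk, neg_eq_zero] at h1
    exact ha (by simpa using h1)
  have hdense := hx w hwmem hw0
  -- the first coordinates of the orbit tend to infinity
  have hco : ∀ k : ℕ, fstL (T^[k + 1] w) = 2 ^ (k + 1) * (cw k * (y k ^ 2 - a ^ 2)) := by
    intro k
    have h1 := co_iterate (k + 1) w 0
    have h2 : co (T^[k + 1] w) 0 = fstL (T^[k + 1] w) := rfl
    rw [← h2, h1, zero_add, hw2]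
    change 2 ^ (k + 1) * (-a ^ 2 * cw k + cw k * (y k * y k)) = _
    ring
  have ha2 : 0 < ‖a‖ ^ 2 := by positivity
  have hev1 : ∀ᶠ k : ℕ in atTop, ‖y k‖ ^ 2 < ‖a‖ ^ 2 / 2 := by
    have h1 : Tendsto (fun k => ‖y k‖ ^ 2) atTop (𝓝 0) := by
      have := ((tendsto_E y).norm).pow 2
      simpa using this
    exact h1.eventually (gt_mem_nhds (by positivity))
  have hev2 := tendsto_growth.eventually_ge_atTop (2 / ‖a‖ ^ 2)
  obtain ⟨K, hK⟩ := eventually_atTop.1 (hev1.and hev2)
  have hbig : ∀ k, K ≤ k → 1 ≤ ‖fstL (T^[k + 1] w)‖ := by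
    intro k hk
    obtain ⟨h1, h2⟩ := hK k hk
    rw [hco, norm_mul, norm_mul, norm_pow, norm_cw, Complex.norm_ofNat]
    have h3 : ‖a‖ ^ 2 / 2 ≤ ‖y k ^ 2 - a ^ 2‖ := by
      have h4 : ‖a ^ 2‖ - ‖y k ^ 2‖ ≤ ‖y k ^ 2 - a ^ 2‖ := by
        rw [norm_sub_rev]
        exact norm_sub_norm_le _ _
      rw [norm_pow, norm_pow] at h4
      linarith
    calc (1 : ℝ) = 2 / ‖a‖ ^ 2 * (‖a‖ ^ 2 / 2) := by field_simp
      _ ≤ (2 ^ (k + 1) * (1 / ((k : ℝ) + 2))) * ‖y k ^ 2 - a ^ 2‖ :=
          mul_le_mul h2 h3 (by positivity) (by positivity)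
      _ = _ := by ring
  -- contradiction with density
  let F : Set ℂ := (fun k : ℕ => fstL (T^[k] w)) '' (Set.Iic K)
  have hF : F.Finite := (Set.finite_Iic K).image _
  have hopen : IsOpen (Metric.ball (0 : ℂ) 1 \ F) := Metric.isOpen_ball.sdiff hF.isClosed
  have hne : (Metric.ball (0 : ℂ) 1 \ F).Nonempty := by
    have hinf : (Metric.ball (0 : ℂ) 1).Infinite := by
      have : (Metric.ball (0 : ℂ) 1) ∈ 𝓝 (0 : ℂ) := Metric.ball_mem_nhds _ one_pos
      exact infinite_of_mem_nhds 0 this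
    exact (hinf.sdiff hF).nonempty
  obtain ⟨ζ, hζ⟩ := hne
  have hpre : (fstL ⁻¹' (Metric.ball (0 : ℂ) 1 \ F)).Nonempty := ⟨mk ζ 0, hζ⟩
  obtain ⟨v, hv, k, rfl⟩ := hdense.inter_open_nonempty _ (hopen.preimage fstL.continuous) hpre
  rcases Nat.lt_or_ge K k with hk | hk
  · obtain ⟨j, rfl⟩ : ∃ j, k = j + 1 := ⟨k - 1, by omega⟩
    have h1 := hbig j (by omega)
    have h2 := hv.1
    rw [mem_ball_zero_iff] at h2
    exact absurd h2 (not_lt.2 h1)
  · exact hv.2 ⟨k, hk, rfl⟩

/-! ### Existence of generators -/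

/-- The sequence of values of a dense sequence of complex numbers along a list, followed by
zeros. -/
noncomputable def val (l : List ℕ) (n : ℕ) : ℂ :=
  if h : n < l.length then TopologicalSpace.denseSeq ℂ (l[n]) else 0

theorem val_eq_zero {l : List ℕ} {n : ℕ} (h : l.length ≤ n) : val l n = 0 := by
  rw [val, dif_neg (not_lt.2 h)]

theorem tendsto_val (l : List ℕ) : Tendsto (val l) atTop (𝓝 0) := by
  refine tendsto_const_nhds.congr' ?_
  filter_upwards [eventually_ge_atTop l.length] with n hn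
  rw [val_eq_zero hn]

/-- The targets. -/
noncomputable def target (l : List ℕ) : XX := ofCo (val l) (tendsto_val l)

theorem co_target (l : List ℕ) (n : ℕ) : co (target l) n = val l n := co_ofCo _ _ n

theorem exists_val_near (f : ℕ → ℂ) {η : ℝ} (hη : 0 < η) (K : ℕ) :
    ∃ l : List ℕ, l.length = K ∧ ∀ n < K, ‖val l n - f n‖ ≤ η := by
  have h : ∀ n : ℕ, ∃ i : ℕ, ‖TopologicalSpace.denseSeq ℂ i - f n‖ < η := by
    intro n
    obtain ⟨i, hi⟩ := (TopologicalSpace.denseRange_denseSeq ℂ).exists_dist_lt (f n) hη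
    exact ⟨i, by rw [← dist_eq_norm, dist_comm]; exact hi⟩
  choose i hi using h
  refine ⟨(List.range K).map i, by simp, fun n hn => ?_⟩
  have h1 : val ((List.range K).map i) n = TopologicalSpace.denseSeq ℂ (i n) := by
    rw [val, dif_pos (by simpa using hn)]
    simp
  rw [h1]
  exact (hi n).le

theorem exists_target_near (w : XX) {η : ℝ} (hη : 0 < η) : ∃ l, ‖target l - w‖ ≤ η := by
  have h1 : ∀ᶠ n in atTop, ‖co w n‖ < η / 3 := by
    have := (tendsto_co w).norm
    rw [norm_zero] at this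
    exact this.eventually (gt_mem_nhds (by positivity))
  obtain ⟨K, hK⟩ := eventually_atTop.1 h1
  obtain ⟨l, hl1, hl2⟩ := exists_val_near (co w) (show 0 < η / 3 by positivity) K
  refine ⟨l, ?_⟩
  have h2 : ‖target l - w‖ ≤ 3 * (η / 3) := by
    refine norm_le_of_co (by positivity) fun n => ?_
    rw [co_sub, co_target]
    rcases Nat.lt_or_ge n K with hn | hn
    · exact hl2 n hn
    · rw [val_eq_zero (by omega), zero_sub, norm_neg]
      exact (hK n hn).le
  linarith

/-- The open sets of the Baire category argument. -/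
def OO (m s : ℕ) (l : List ℕ) (j : ℕ) : Set E :=
  {y | ∃ k : ℕ, ‖(T^[k] (mk 0 y ^ (m + 1)) : XX) - target l‖ < 1 / ((j : ℝ) + 1) ∧
    ∀ q ∈ Finset.Ioc m s, ‖(T^[k] (mk 0 y ^ (q + 1)) : XX)‖ < 1 / ((j : ℝ) + 1)}

theorem continuous_orbit (k q : ℕ) : Continuous fun y : E => (T^[k] (mk 0 y ^ (q + 1)) : XX) := by
  have h1 : Continuous fun y : E => mk 0 y := mkL.continuous.comp (Continuous.prodMk_right 0)
  exact (T.continuous.iterate k).comp (h1.pow (q + 1))

theorem isOpen_OO (m s : ℕ) (l : List ℕ) (j : ℕ) : IsOpen (OO m s l j) := by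
  have : OO m s l j = ⋃ k : ℕ, ({y : E | ‖(T^[k] (mk 0 y ^ (m + 1)) : XX) - target l‖ <
      1 / ((j : ℝ) + 1)} ∩ ⋂ q ∈ Finset.Ioc m s,
        {y : E | ‖(T^[k] (mk 0 y ^ (q + 1)) : XX)‖ < 1 / ((j : ℝ) + 1)}) := by
    ext y
    simp only [OO, Set.mem_ofPred_eq, Set.mem_iUnion, Set.mem_inter_iff, Set.mem_iInter]
  rw [this]
  refine isOpen_iUnion fun k => IsOpen.inter ?_ ?_
  · exact isOpen_lt ((continuous_orbit k m).sub continuous_const).norm continuous_const
  · exact isOpen_biInter_finset fun q _ =>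
      isOpen_lt (continuous_orbit k q).norm continuous_const

/-- The blocks. -/
theorem exists_block (m : ℕ) (l : List ℕ) {β : ℝ} (hβ : 0 < β) :
    ∀ᶠ k : ℕ in atTop, ∃ b : ℕ → ℂ, (∀ j, ‖b j‖ ≤ β) ∧ (∀ j, k + l.length ≤ j → b j = 0) ∧
      ∀ n, 2 ^ (k + 1) * (cw (n + k) ^ m * b (n + k) ^ (m + 1)) = val l n := by
  have hA : ∀ n, ‖val l n‖ ≤ ‖target l‖ := fun n => by
    rw [← co_target]
    exact norm_co_le _ _
  set A := ‖target l‖ with hAdef
  have hA0 : 0 ≤ A := norm_nonneg _
  set L := l.length + 2 with hL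
  have hlim : Tendsto (fun k : ℕ => (A * 2 ^ L) * ((((k + L : ℕ) : ℝ)) ^ m / (2 : ℝ) ^ (k + L)))
      atTop (𝓝 0) := by
    have h1 : Tendsto (fun n : ℕ => ((n : ℝ)) ^ m / (2 : ℝ) ^ n) atTop (𝓝 0) :=
      tendsto_pow_const_div_const_pow_of_one_lt m (by norm_num)
    have h2 := ((tendsto_add_atTop_iff_nat L).2 h1).const_mul (A * 2 ^ L)
    rwa [mul_zero] at h2
  have hev := hlim.eventually (gt_mem_nhds (show 0 < β ^ (m + 1) by positivity))
  filter_upwards [hev] with k hk
  let z : ℕ → ℂ := fun j => if j < k then 0 else val l (j - k) / (2 ^ (k + 1) * cw j ^ m)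
  let b : ℕ → ℂ := fun j => (z j) ^ (((m + 1 : ℕ) : ℂ)⁻¹)
  have hb : ∀ j, b j ^ (m + 1) = z j := fun j => Complex.cpow_nat_inv_pow _ (by omega)
  have hzero : ∀ j, z j = 0 → b j = 0 := by
    intro j hj
    have h1 := hb j
    rw [hj] at h1
    exact pow_eq_zero_iff (by omega) |>.1 h1
  have hz0 : ∀ j, k + l.length ≤ j → z j = 0 := by
    intro j hj
    simp only [z]
    rw [if_neg (by omega), val_eq_zero (by omega), zero_div]
  refine ⟨b, ?_, fun j hj => hzero j (hz0 j hj), ?_⟩
  · intro j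
    by_cases hj0 : z j = 0
    · rw [hzero j hj0, norm_zero]
      exact hβ.le
    have hj1 : ¬ j < k := by
      intro h
      exact hj0 (by simp only [z]; rw [if_pos h])
    have hj2 : j < k + l.length := by
      by_contra h
      exact hj0 (hz0 j (by omega))
    have h1 : ‖b j‖ ^ (m + 1) ≤ β ^ (m + 1) := by
      rw [← norm_pow, hb]
      refine le_trans ?_ hk.le
      simp only [z]
      rw [if_neg hj1, norm_div, norm_mul, norm_pow, norm_pow, Complex.norm_ofNat, norm_cw]
      have h2 : ‖val l (j - k)‖ / (2 ^ (k + 1) * (1 / ((j : ℝ) + 2)) ^ m) =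
          ‖val l (j - k)‖ * ((j : ℝ) + 2) ^ m / 2 ^ (k + 1) := by
        rw [one_div, inv_pow]
        field_simp
      rw [h2]
      have h3 : ((j : ℝ) + 2) ^ m ≤ ((k + L : ℕ) : ℝ) ^ m := by
        refine pow_le_pow_left₀ (by positivity) ?_ m
        have : j + 2 ≤ k + L := by omega
        exact_mod_cast this
      calc ‖val l (j - k)‖ * ((j : ℝ) + 2) ^ m / 2 ^ (k + 1)
          ≤ A * ((k + L : ℕ) : ℝ) ^ m / 2 ^ (k + 1) := by
            gcongr
            exact hA _
        _ ≤ A * ((k + L : ℕ) : ℝ) ^ m / 2 ^ k := by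
            gcongr
            · norm_num
            · omega
        _ = (A * 2 ^ L) * ((((k + L : ℕ) : ℝ)) ^ m / (2 : ℝ) ^ (k + L)) := by
            have hp : (2 : ℝ) ^ (k + L) = 2 ^ k * 2 ^ L := pow_add _ _ _
            rw [hp]
            field_simp
    exact (pow_le_pow_iff_left₀ (norm_nonneg _) hβ.le (by omega)).1 h1
  · intro n
    rw [hb]
    simp only [z]
    rw [if_neg (by omega), Nat.add_sub_cancel]
    have := cw_ne (n + k)
    field_simp

theorem dense_OO (m s : ℕ) (l : List ℕ) (j : ℕ) : Dense (OO m s l j) := by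
  rw [Metric.dense_iff]
  intro y₀ r hr
  set A := ‖target l‖ with hAdef
  have hA0 : 0 ≤ A := norm_nonneg _
  set η : ℝ := 1 / ((j : ℝ) + 1) with hη
  have hη0 : 0 < η := by positivity
  set β : ℝ := min (min (r / 4) 1) (η / (6 * (A + 1))) with hβ
  have hβ0 : 0 < β := by
    refine lt_min (lt_min (by positivity) one_pos) (by positivity)
  have hβ1 : β ≤ 1 := (min_le_left _ _).trans (min_le_right _ _)
  have hβr : β ≤ r / 4 := (min_le_left _ _).trans (min_le_left _ _)
  have hβA : 3 * (A * β) < η := by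
    have h1 : β ≤ η / (6 * (A + 1)) := min_le_right _ _
    rw [le_div_iff₀ (by positivity)] at h1
    nlinarith
  have hy₀ : ∀ᶠ k in atTop, ∀ n, k ≤ n → ‖y₀ n‖ < r / 4 := by
    have h1 : ∀ᶠ n in atTop, ‖y₀ n‖ < r / 4 := by
      have := (tendsto_E y₀).norm
      rw [norm_zero] at this
      exact this.eventually (gt_mem_nhds (by positivity))
    obtain ⟨K, hK⟩ := eventually_atTop.1 h1
    filter_upwards [eventually_ge_atTop K] with k hk n hn
    exact hK n (hk.trans hn)
  obtain ⟨k, hk1, b, hb1, hb2, hb3⟩ := (hy₀.and (exists_block m l hβ0)).exists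
  let f : ℕ → ℂ := fun n => if n < k then y₀ n else b n
  have hf : Tendsto f atTop (𝓝 0) := by
    refine tendsto_const_nhds.congr' ?_
    filter_upwards [eventually_ge_atTop (k + l.length)] with n hn
    simp only [f]
    rw [if_neg (by omega), hb2 n hn]
  set y : E := ofSeq f hf with hy
  have hyk : ∀ n, y (n + k) = b (n + k) := by
    intro n
    change f (n + k) = _
    simp only [f]
    rw [if_neg (by omega)]
  -- the coordinates of the orbit
  have hcoq : ∀ q n, co (T^[k + 1] (mk 0 y ^ (q + 1))) n =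
      2 ^ (k + 1) * (cw (n + k) ^ q * b (n + k) ^ (q + 1)) := by
    intro q n
    rw [co_iterate, show n + (k + 1) = (n + k) + 1 by ring, (co_pow y q (n + k)).1, hyk]
  refine ⟨y, ?_, k + 1, ?_, ?_⟩
  · rw [Metric.mem_ball, dist_eq_norm]
    have h1 : ‖y - y₀‖ ≤ r / 2 := by
      refine norm_E_le (by positivity) fun n => ?_
      change ‖f n - y₀ n‖ ≤ _
      simp only [f]
      split_ifs with hn
      · rw [sub_self, norm_zero]
        positivity
      · have h2 := hk1 n (not_lt.1 hn)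
        have h3 := hb1 n
        exact (norm_sub_le _ _).trans (by linarith)
    linarith
  · have h1 : (T^[k + 1] (mk 0 y ^ (m + 1)) : XX) - target l = 0 := by
      have h2 : ‖(T^[k + 1] (mk 0 y ^ (m + 1)) : XX) - target l‖ ≤ 3 * 0 := by
        refine norm_le_of_co le_rfl fun n => ?_
        rw [co_sub, hcoq, hb3, co_target, sub_self, norm_zero]
      rw [mul_zero] at h2
      exact norm_eq_zero.1 (le_antisymm h2 (norm_nonneg _))
    rw [h1, norm_zero]
    exact hη0
  · intro q hq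
    obtain ⟨hq1, -⟩ := Finset.mem_Ioc.1 hq
    refine lt_of_le_of_lt (norm_le_of_co (C := A * β) (by positivity) fun n => ?_) hβA
    rw [hcoq]
    obtain ⟨t, rfl⟩ : ∃ t, q = m + (t + 1) := ⟨q - m - 1, by omega⟩
    have h1 : 2 ^ (k + 1) * (cw (n + k) ^ (m + (t + 1)) * b (n + k) ^ (m + (t + 1) + 1)) =
        (2 ^ (k + 1) * (cw (n + k) ^ m * b (n + k) ^ (m + 1))) *
          (cw (n + k) ^ (t + 1) * b (n + k) ^ (t + 1)) := by ring
    rw [h1, hb3, norm_mul, norm_mul, norm_pow, norm_pow]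
    have h2 : ‖val l n‖ ≤ A := by
      rw [hAdef, ← co_target]
      exact norm_co_le _ _
    have h3 : ‖cw (n + k)‖ ^ (t + 1) ≤ 1 := pow_le_one₀ (norm_nonneg _) (norm_cw_le _)
    have h4 : ‖b (n + k)‖ ^ (t + 1) ≤ β := by
      rw [pow_succ]
      calc ‖b (n + k)‖ ^ t * ‖b (n + k)‖ ≤ 1 * β :=
            mul_le_mul (pow_le_one₀ (norm_nonneg _) ((hb1 _).trans hβ1)) (hb1 _)
              (norm_nonneg _) zero_le_one
        _ = β := one_mul _
    calc ‖val l n‖ * (‖cw (n + k)‖ ^ (t + 1) * ‖b (n + k)‖ ^ (t + 1)) ≤ A * (1 * β) :=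
          mul_le_mul h2 (mul_le_mul h3 h4 (by positivity) zero_le_one) (by positivity) hA0
      _ = A * β := by ring

theorem exists_good : ∃ y : E, ∀ m s l j, y ∈ OO m s l j := by
  have h : Dense (⋂ i : ℕ × ℕ × List ℕ × ℕ, OO i.1 i.2.1 i.2.2.1 i.2.2.2) :=
    dense_iInter_of_isOpen (fun i => isOpen_OO _ _ _ _) fun i => dense_OO _ _ _ _
  obtain ⟨y, hy⟩ := h.nonempty
  refine ⟨y, fun m s l j => ?_⟩
  exact Set.mem_iInter.1 hy (m, s, l, j)

theorem hypercyclic_of_good {y : E} (hy : ∀ m s l j, y ∈ OO m s l j) {z : XX}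
    (hz : z ∈ Submodule.span ℂ (Set.range fun n : ℕ => mk 0 y ^ (n + 1))) (hz0 : z ≠ 0) :
    Hypercyclic T z := by
  rw [Finsupp.mem_span_range_iff_exists_finsupp] at hz
  obtain ⟨c, hc⟩ := hz
  have hc0 : c.support.Nonempty := by
    rw [Finsupp.support_nonempty_iff]
    rintro rfl
    exact hz0 (by rw [← hc, Finsupp.sum_zero_index])
  set m := c.support.min' hc0 with hm
  set s := c.support.max' hc0 with hs
  have hmc : c m ≠ 0 := Finsupp.mem_support_iff.1 (Finset.min'_mem _ hc0)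
  have hdecomp : z = c m • mk 0 y ^ (m + 1) + ∑ q ∈ c.support.erase m, c q • mk 0 y ^ (q + 1) := by
    rw [← hc, Finsupp.sum]
    exact (Finset.add_sum_erase _ (fun q => c q • mk 0 y ^ (q + 1)) (Finset.min'_mem _ hc0)).symm
  have hTk : ∀ k : ℕ, (T^[k] z : XX) = c m • T^[k] (mk 0 y ^ (m + 1)) +
      ∑ q ∈ c.support.erase m, c q • T^[k] (mk 0 y ^ (q + 1)) := by
    intro k
    have hk : ∀ x : XX, T^[k] x = (T ^ k) x := iter_eq k
    simp only [hk]
    conv_lhs => rw [hdecomp]
    rw [map_add, map_smul, map_sum]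
    simp only [map_smul]
  rw [Hypercyclic, Metric.dense_iff]
  intro w r hr
  have hcm : 0 < ‖c m‖ := norm_pos_iff.2 hmc
  obtain ⟨l, hl⟩ := exists_target_near ((c m)⁻¹ • w) (show 0 < r / (4 * ‖c m‖) by positivity)
  set B : ℝ := ‖c m‖ + ∑ q ∈ c.support.erase m, ‖c q‖ with hB
  have hB0 : 0 < B := lt_of_lt_of_le hcm (le_add_of_nonneg_right
    (Finset.sum_nonneg fun _ _ => norm_nonneg _))
  obtain ⟨j, hj⟩ := exists_nat_one_div_lt (show 0 < r / (4 * B) by positivity)
  obtain ⟨k, hk1, hk2⟩ := hy m s l j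
  refine ⟨T^[k] z, ?_, ⟨k, rfl⟩⟩
  rw [Metric.mem_ball, dist_eq_norm, hTk]
  have e1 : c m • T^[k] (mk 0 y ^ (m + 1)) + ∑ q ∈ c.support.erase m, c q • T^[k] (mk 0 y ^ (q + 1))
      - w = c m • (T^[k] (mk 0 y ^ (m + 1)) - target l) + c m • (target l - (c m)⁻¹ • w) +
        ∑ q ∈ c.support.erase m, c q • T^[k] (mk 0 y ^ (q + 1)) := by
    rw [smul_sub, smul_sub, smul_smul, mul_inv_cancel₀ hmc, one_smul]
    abel
  rw [e1]
  have h1 : ‖c m • (T^[k] (mk 0 y ^ (m + 1)) - target l)‖ ≤ ‖c m‖ * (1 / ((j : ℝ) + 1)) := by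
    rw [norm_smul]
    exact mul_le_mul_of_nonneg_left hk1.le (norm_nonneg _)
  have h2 : ‖c m • (target l - (c m)⁻¹ • w)‖ ≤ r / 4 := by
    rw [norm_smul]
    calc ‖c m‖ * ‖target l - (c m)⁻¹ • w‖ ≤ ‖c m‖ * (r / (4 * ‖c m‖)) :=
          mul_le_mul_of_nonneg_left hl (norm_nonneg _)
      _ = r / 4 := by field_simp
  have h3 : ‖∑ q ∈ c.support.erase m, c q • T^[k] (mk 0 y ^ (q + 1))‖ ≤
      (∑ q ∈ c.support.erase m, ‖c q‖) * (1 / ((j : ℝ) + 1)) := by
    rw [Finset.sum_mul]
    refine (norm_sum_le _ _).trans (Finset.sum_le_sum fun q hq => ?_)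
    rw [norm_smul]
    refine mul_le_mul_of_nonneg_left ?_ (norm_nonneg _)
    obtain ⟨hq1, hq2⟩ := Finset.mem_erase.1 hq
    refine (hk2 q (Finset.mem_Ioc.2 ⟨?_, Finset.le_max' _ _ hq2⟩)).le
    exact lt_of_le_of_ne (Finset.min'_le _ _ hq2) (Ne.symm hq1)
  have h4 : B * (1 / ((j : ℝ) + 1)) < r / 4 := by
    calc B * (1 / ((j : ℝ) + 1)) < B * (r / (4 * B)) := mul_lt_mul_of_pos_left hj hB0
      _ = r / 4 := by field_simp
  rw [hB, add_mul] at h4
  calc _ ≤ _ := norm_add₃_le
    _ < r := by linarith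

/-- Characters separate the points of the algebra. -/
theorem exists_character {x : XX} (hx : x ≠ 0) : ∃ χ : XX →ₐ[ℂ] ℂ, χ x ≠ 0 := by
  let χ₀ : XX →ₐ[ℂ] ℂ :=
    { toFun := fun x => fstL x
      map_one' := rfl
      map_mul' := fun _ _ => rfl
      map_zero' := rfl
      map_add' := fun _ _ => rfl
      commutes' := fun _ => rfl }
  let χ : ℕ → (XX →ₐ[ℂ] ℂ) := fun n =>
    { toFun := fun x => fstL x + cw n * sndL x n
      map_one' := by
        change (1 : ℂ) + cw n * 0 = 1
        ring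
      map_mul' := fun x y => by
        obtain ⟨a, u, rfl⟩ := exists_mk x
        obtain ⟨b, v, rfl⟩ := exists_mk y
        change a * b + cw n * (a * v n + b * u n + cw n * (u n * v n)) =
          (a + cw n * u n) * (b + cw n * v n)
        ring
      map_zero' := by
        change (0 : ℂ) + cw n * 0 = 0
        ring
      map_add' := fun x y => by
        obtain ⟨a, u, rfl⟩ := exists_mk x
        obtain ⟨b, v, rfl⟩ := exists_mk y
        change a + b + cw n * (u n + v n) = (a + cw n * u n) + (b + cw n * v n)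
        ring
      commutes' := fun r => by
        change r + cw n * 0 = r
        ring }
  by_contra hcon
  push Not at hcon
  apply hx
  obtain ⟨a, u, rfl⟩ := exists_mk x
  have h0 : a = 0 := hcon χ₀
  have h1 : u = 0 := by
    ext n
    have h2 : a + cw n * u n = 0 := hcon (χ n)
    rw [h0, zero_add] at h2
    exact (mul_eq_zero.1 h2).resolve_left (cw_ne n)
  rw [h0, h1, mk_zero]

/-- There are a commutative unital semisimple complex Banach algebra and a bounded operator on it
which supports a hypercyclic algebra, such that the set of generators of hypercyclic algebras is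
neither dense nor residual. -/
theorem result :
    ∃ (X : Type) (_ : NormedRing X) (_ : NormedAlgebra ℂ X) (_ : CompleteSpace X)
      (_ : NormOneClass X) (T : X →L[ℂ] X),
      (∀ a b : X, a * b = b * a) ∧ (∀ x : X, x ≠ 0 → ∃ χ : X →ₐ[ℂ] ℂ, χ x ≠ 0) ∧
      (Gen T).Nonempty ∧ ¬ Dense (Gen T) ∧
      ¬ ∃ U : ℕ → Set X, (∀ n, IsOpen (U n) ∧ Dense (U n)) ∧ ⋂ n, U n ⊆ Gen T := by
  have hnd : ¬ Dense (Gen T) := by
    intro hd
    have hopen : IsOpen {x : XX | fstL x ≠ 0} := isOpen_ne_fun fstL.continuous continuous_const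
    obtain ⟨x, hx1, hx2⟩ := hd.inter_open_nonempty _ hopen ⟨mk 1 0, one_ne_zero⟩
    exact hx1 (fst_eq_zero_of_gen hx2)
  refine ⟨XX, inferInstance, inferInstance, inferInstance, inferInstance, T, XX_comm,
    fun x hx => exists_character hx, ?_, hnd, ?_⟩
  · obtain ⟨y, hy⟩ := exists_good
    refine ⟨mk 0 y, ?_, fun z hz hz0 => hypercyclic_of_good hy hz hz0⟩
    intro h0
    obtain ⟨l, hl⟩ := exists_target_near (mk 1 0) (show (0 : ℝ) < 1 / 4 by norm_num)
    obtain ⟨k, hk, -⟩ := hy 0 0 l 1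
    rw [h0, zero_add, pow_one] at hk
    have h1 : (T^[k] (0 : XX) : XX) = 0 := by
      rw [iter_eq, map_zero]
    rw [h1, zero_sub, norm_neg] at hk
    have h2 : ‖mk 1 0‖ = 1 := by rw [norm_mk, norm_one, norm_zero, add_zero]
    have h3 : ‖mk 1 0‖ ≤ ‖target l‖ + ‖target l - mk 1 0‖ := by
      calc ‖mk 1 0‖ = ‖target l - (target l - mk 1 0)‖ := by congr 1; abel
        _ ≤ _ := norm_sub_le _ _
    norm_num at hk
    linarith
  · rintro ⟨U, hU1, hU2⟩
    exact hnd ((dense_iInter_of_isOpen (fun n => (hU1 n).1) fun n => (hU1 n).2).mono hU2)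

end Pool.Agent.Results.MP_6ee6b4_an.GeneratorsNotDense
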